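import Pool.Agent.H34.Mar.Torus

/-!
# Margulis' question on `u([P(n)]) x` for tori

`G = ℝ^d`, `Γ = ℤ^d`, `u(t) = t v`.  The file states, for every translation flow on every torus
whose integer-time orbit is dense, exactly which nonconstant real polynomials `P` have the
property that `u([P(n)]) x` is equidistributed, and which `P` work for all of them.
-/

set_option autoImplicit false

open Finset Filter Topology Polynomial MeasureTheory

namespace Pool.Agent.Results.MP_a6827b_an.ToriClassification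

/-- the Haar probability measure of the torus `(ℝ/ℤ)^d` -/
noncomputable def torusHaar (d : ℕ) : Measure (Fin d → UnitAddCircle) :=
  Measure.pi fun _ : Fin d => (AddCircle.haarAddCircle : Measure UnitAddCircle)

/-- the sequence `y 1, y 2, y 3, ...` of points of the torus is equidistributed -/
def EquidistributedInTorus {d : ℕ} (y : ℕ → (Fin d → UnitAddCircle)) : Prop :=
  ∀ f : C((Fin d → UnitAddCircle), ℝ),
    Tendsto (fun N : ℕ => (1 / (N : ℝ)) * ∑ n ∈ Finset.Icc 1 N, f (y n)) atTop
      (𝓝 (∫ t, f t ∂(torusHaar d)))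

/-- the flow `u(s) x = s v + x` on the torus -/
noncomputable def flow {d : ℕ} (v : Fin d → ℝ) (s : ℝ) (x : Fin d → UnitAddCircle) :
    Fin d → UnitAddCircle :=
  fun i => ((s * v i : ℝ) : UnitAddCircle) + x i

/-- all coefficients of `Q`, except possibly the constant one, are rational -/
def RationalUpToConstant (Q : ℝ[X]) : Prop :=
  ∀ j : ℕ, 1 ≤ j → ∃ c : ℚ, Q.coeff j = (c : ℝ)

theorem result (P : ℝ[X]) (hP : 0 < P.natDegree) :
    (∀ (d : ℕ) (v : Fin d → ℝ) (x : Fin d → UnitAddCircle),
      DenseRange (fun m : ℤ => flow v (m : ℝ) x) →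
        (EquidistributedInTorus (fun n : ℕ => flow v (⌊P.eval (n : ℝ)⌋ : ℝ) x) ↔
          (RationalUpToConstant P ∨
            ∀ k : Fin d → ℤ, k ≠ 0 → ∀ m : ℤ,
              ¬ RationalUpToConstant (C ((∑ i, (k i : ℝ) * v i) + (m : ℝ)) * P)))) ∧
    ((∀ (d : ℕ) (v : Fin d → ℝ) (x : Fin d → UnitAddCircle),
      DenseRange (fun m : ℤ => flow v (m : ℝ) x) →
        EquidistributedInTorus (fun n : ℕ => flow v (⌊P.eval (n : ℝ)⌋ : ℝ) x)) ↔
      ∀ a : ℝ, Irrational a → ¬ RationalUpToConstant (C a * P)) :=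
  ⟨fun _ v x hd => Pool.Agent.H34.Mar.torus_iff P hP v x hd, Pool.Agent.H34.Mar.tori_iff P hP⟩

end Pool.Agent.Results.MP_a6827b_an.ToriClassification
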